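import Mathlib

/-!
The transport integral operators: exit distance, averaging measure, measurability and norm bounds.
-/

open Set Topology Filter MeasureTheory Metric
open scoped Pointwise

namespace Pool.Agent.R239.Transp

/-- Three-dimensional Euclidean space. -/
abbrev E3 : Type := EuclideanSpace ℝ (Fin 3)

/-- The unit sphere of directions. -/
abbrev S2 : Type := sphere (0 : E3) 1

/-- Surface measure on the sphere (total mass `4 pi`). -/
noncomputable def sig : Measure S2 := (volume : Measure E3).toSphere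

/-- First exit distance. -/
noncomputable def exitD (V : Set E3) (r : E3) (w : S2) : ℝ :=
  sInf {t : ℝ | 0 < t ∧ r + t • (w : E3) ∉ V}

lemma sig_univ : sig univ = ENNReal.ofReal (4 * Real.pi) := by
  unfold sig
  rw [Measure.toSphere_apply_univ, EuclideanSpace.volume_ball_fin_three]
  simp only [finrank_euclideanSpace, Fintype.card_fin]
  rw [ENNReal.ofReal_one, one_pow, one_mul, show ((3 : ℕ) : ENNReal) = ENNReal.ofReal 3 by simp,
    ← ENNReal.ofReal_mul (by norm_num)]
  congr 1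
  ring

/-- The normalized surface measure. -/
noncomputable def pr : Measure S2 := (ENNReal.ofReal (4 * Real.pi))⁻¹ • sig

instance : IsProbabilityMeasure pr := by
  refine ⟨?_⟩
  unfold pr
  rw [Measure.smul_apply, sig_univ, smul_eq_mul]
  have hpi := Real.pi_pos
  exact ENNReal.inv_mul_cancel (by simp [hpi]) ENNReal.ofReal_ne_top

lemma integral_pr (F : S2 → ℝ) : ∫ w, F w ∂pr = 1 / (4 * Real.pi) * ∫ w, F w ∂sig := by
  unfold pr
  rw [integral_smul_measure, ENNReal.toReal_inv, ENNReal.toReal_ofReal (by positivity), smul_eq_mul,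
    one_div]

/-- Thin bands around the equator have small measure. -/
lemma band_null : pr {w : S2 | (w : E3) 2 = 0} = 0 := by
  unfold pr sig
  rw [Measure.smul_apply, smul_eq_mul]
  have hm : MeasurableSet {w : S2 | (w : E3) 2 = 0} := by
    apply IsClosed.measurableSet
    apply isClosed_eq _ continuous_const
    fun_prop
  rw [Measure.toSphere_apply' _ hm]
  have hsub : Ioo (0 : ℝ) 1 • ((fun w : S2 => (w : E3)) '' {w : S2 | (w : E3) 2 = 0}) ⊆
      ((LinearMap.ker (EuclideanSpace.proj (𝕜 := ℝ) (2 : Fin 3)).toLinearMap : Submodule ℝ E3) : Set E3) := by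
    rintro x ⟨t, ht, y, ⟨w, hw, rfl⟩, rfl⟩
    have hw' : (w : E3) 2 = 0 := hw
    simp [hw']
  have hz : (volume : Measure E3)
      ((LinearMap.ker (EuclideanSpace.proj (𝕜 := ℝ) (2 : Fin 3)).toLinearMap : Submodule ℝ E3) : Set E3) = 0 := by
    apply Measure.addHaar_submodule
    intro h
    have h1 : (EuclideanSpace.single (2 : Fin 3) (1 : ℝ)) ∈
        (LinearMap.ker (EuclideanSpace.proj (𝕜 := ℝ) (2 : Fin 3)).toLinearMap : Submodule ℝ E3) := by
      rw [h]; trivial
    simp at h1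
  have h0 : (volume : Measure E3) (Ioo (0 : ℝ) 1 • ((fun w : S2 => (w : E3)) '' {w : S2 | (w : E3) 2 = 0})) = 0 :=
    measure_mono_null hsub hz
  rw [h0]
  simp

/-- The measure of the equatorial band. -/
noncomputable def kap (t : ℝ) : ℝ := pr.real {w : S2 | |(w : E3) 2| ≤ t}

lemma kap_nonneg (t : ℝ) : 0 ≤ kap t := measureReal_nonneg

lemma kap_mono {s t : ℝ} (h : s ≤ t) : kap s ≤ kap t := by
  unfold kap
  apply measureReal_mono
  · intro w hw
    exact le_trans hw h
  · exact measure_ne_top _ _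

lemma continuous_coord (i : Fin 3) : Continuous fun w : S2 => (w : E3) i := by fun_prop

lemma measurableSet_band (t : ℝ) : MeasurableSet {w : S2 | |(w : E3) 2| ≤ t} :=
  (isClosed_le (continuous_coord 2).abs continuous_const).measurableSet

lemma exists_kap_lt {ε : ℝ} (hε : 0 < ε) : ∃ t > 0, kap t < ε := by
  have h1 : Tendsto (fun n : ℕ => pr {w : S2 | |(w : E3) 2| ≤ 1 / ((n : ℝ) + 1)}) atTop
      (𝓝 (pr (⋂ n : ℕ, {w : S2 | |(w : E3) 2| ≤ 1 / ((n : ℝ) + 1)}))) := by
    apply tendsto_measure_iInter_atTop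
    · intro n
      exact (measurableSet_band _).nullMeasurableSet
    · intro m n hmn w hw
      have hw' : |(w : E3) 2| ≤ 1 / ((n : ℝ) + 1) := hw
      refine hw'.trans ?_
      apply one_div_le_one_div_of_le (by positivity)
      have : (m : ℝ) ≤ n := by exact_mod_cast hmn
      linarith
    · exact ⟨0, measure_ne_top _ _⟩
  have h2 : (⋂ n : ℕ, {w : S2 | |(w : E3) 2| ≤ 1 / ((n : ℝ) + 1)}) = {w : S2 | (w : E3) 2 = 0} := by
    ext w
    simp only [mem_iInter]
    constructor
    · intro h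
      have h3 : |(w : E3) 2| ≤ 0 := ge_of_tendsto' tendsto_one_div_add_atTop_nhds_zero_nat h
      exact abs_nonpos_iff.mp h3
    · intro h n
      have h' : (w : E3) 2 = 0 := h
      show |(w : E3) 2| ≤ _
      rw [h', abs_zero]
      positivity
  rw [h2, band_null] at h1
  have h3 := (ENNReal.tendsto_toReal (by simp : (0 : ENNReal) ≠ ⊤)).comp h1
  rw [ENNReal.toReal_zero] at h3
  obtain ⟨n, hn⟩ := (h3.eventually (gt_mem_nhds hε)).exists
  exact ⟨1 / ((n : ℝ) + 1), by positivity, hn⟩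

/-- A bound for averages. -/
lemma avg_le (F : S2 → ℝ) (hF : Integrable F pr) (A : Set S2) (hA : MeasurableSet A) (a b : ℝ)
    (h1 : ∀ w, w ∉ A → F w ≤ a) (h2 : ∀ w ∈ A, F w ≤ b) (ha : 0 ≤ a) :
    ∫ w, F w ∂pr ≤ a + b * pr.real A := by
  have h3 : ∫ w, F w ∂pr ≤ ∫ w, (a + A.indicator (fun _ => b) w) ∂pr := by
    apply integral_mono hF
    · exact (integrable_const a).add ((integrable_const b).indicator hA)
    · intro w
      by_cases hw : w ∈ A
      · simp only [indicator_of_mem hw]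
        linarith [h2 w hw]
      · simp only [indicator_of_notMem hw]
        linarith [h1 w hw]
  refine h3.trans (le_of_eq ?_)
  rw [integral_add (integrable_const a) ((integrable_const b).indicator hA), integral_const,
    integral_indicator_const _ hA]
  simp
  ring

section exit

variable {V : Set E3} {R : ℝ}

/-- `R` bounds the distances in `V`. -/
def DiamLt (V : Set E3) (R : ℝ) : Prop := 0 < R ∧ ∀ p ∈ V, ∀ q ∈ V, dist p q < R

lemma exitD_bddBelow (V : Set E3) (r : E3) (w : S2) :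
    BddBelow {t : ℝ | 0 < t ∧ r + t • (w : E3) ∉ V} := ⟨0, fun _ ht => ht.1.le⟩

lemma norm_S2 (w : S2) : ‖(w : E3)‖ = 1 := by
  have := w.2
  rwa [mem_sphere_zero_iff_norm] at this

lemma dist_ray (r : E3) (w : S2) (s t : ℝ) : dist (r + s • (w : E3)) (r + t • (w : E3)) = |s - t| := by
  rw [dist_add_left, dist_eq_norm, ← sub_smul, norm_smul, norm_S2, mul_one, Real.norm_eq_abs]

lemma exitD_nonneg (V : Set E3) (r : E3) (w : S2) : 0 ≤ exitD V r w :=
  Real.sInf_nonneg fun _ ht => ht.1.le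

lemma mem_of_lt_exitD {r : E3} {w : S2} {t : ℝ} (h0 : 0 < t) (h1 : t < exitD V r w) :
    r + t • (w : E3) ∈ V := by
  by_contra hcon
  have := csInf_le (exitD_bddBelow V r w) (show t ∈ {t : ℝ | 0 < t ∧ r + t • (w : E3) ∉ V} from ⟨h0, hcon⟩)
  unfold exitD at h1
  linarith

lemma exitD_nonempty (hV : DiamLt V R) (r : E3) (w : S2) :
    {t : ℝ | 0 < t ∧ r + t • (w : E3) ∉ V}.Nonempty := by
  obtain ⟨hR, hd⟩ := hV
  by_contra hcon
  rw [not_nonempty_iff_eq_empty] at hcon
  have hin : ∀ t : ℝ, 0 < t → r + t • (w : E3) ∈ V := by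
    intro t ht
    by_contra h
    have : t ∈ ({t : ℝ | 0 < t ∧ r + t • (w : E3) ∉ V}) := ⟨ht, h⟩
    rw [hcon] at this
    exact this
  have h1 := hd _ (hin 1 one_pos) _ (hin (1 + R) (by linarith))
  rw [dist_ray] at h1
  rw [show 1 - (1 + R) = -R by ring, abs_neg, abs_of_pos hR] at h1
  exact lt_irrefl _ h1

lemma exitD_le (hV : DiamLt V R) (r : E3) (w : S2) : exitD V r w ≤ R := by
  by_contra hcon
  rw [not_le] at hcon
  have h0 : 0 < (exitD V r w - R) / 2 := by linarith
  have h1 := mem_of_lt_exitD (V := V) (r := r) (w := w) h0 (by linarith [hV.1])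
  have h2 := mem_of_lt_exitD (V := V) (r := r) (w := w) (t := (exitD V r w - R) / 2 + R)
    (by linarith [hV.1]) (by linarith)
  have h3 := hV.2 _ h1 _ h2
  rw [dist_ray] at h3
  rw [show (exitD V r w - R) / 2 - ((exitD V r w - R) / 2 + R) = -R by ring, abs_neg,
    abs_of_pos hV.1] at h3
  exact lt_irrefl _ h3

lemma le_exitD (hV : DiamLt V R) {r : E3} {w : S2} {c : ℝ}
    (h : ∀ t, 0 < t → t < c → r + t • (w : E3) ∈ V) : c ≤ exitD V r w := by
  unfold exitD
  apply le_csInf (exitD_nonempty hV r w)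
  rintro t ⟨ht0, ht1⟩
  by_contra hcon
  rw [not_le] at hcon
  exact ht1 (h t ht0 hcon)

lemma exitD_lt_iff (hV : DiamLt V R) (r : E3) (w : S2) (a : ℝ) :
    exitD V r w < a ↔ ∃ t, 0 < t ∧ t < a ∧ r + t • (w : E3) ∉ V := by
  unfold exitD
  rw [csInf_lt_iff (exitD_bddBelow V r w) (exitD_nonempty hV r w)]
  constructor
  · rintro ⟨t, ⟨h1, h2⟩, h3⟩
    exact ⟨t, h1, h3, h2⟩
  · rintro ⟨t, h1, h3, h2⟩
    exact ⟨t, ⟨h1, h2⟩, h3⟩

lemma measurable_exitD (hV : DiamLt V R) (hVo : IsOpen V) :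
    Measurable fun p : E3 × S2 => exitD V p.1 p.2 := by
  apply measurable_of_Iio
  intro a
  have e : (fun p : E3 × S2 => exitD V p.1 p.2) ⁻¹' Iio a =
      ⋃ n : ℕ, {p : E3 × S2 | ∃ t ∈ Icc (1 / ((n : ℝ) + 1)) (a - 1 / ((n : ℝ) + 1)),
        p.1 + t • (p.2 : E3) ∉ V} := by
    ext p
    simp only [mem_preimage, mem_Iio, mem_iUnion]
    rw [exitD_lt_iff hV]
    constructor
    · rintro ⟨t, h1, h2, h3⟩
      obtain ⟨n, hn⟩ := exists_nat_one_div_lt (lt_min h1 (sub_pos.mpr h2))
      refine ⟨n, t, ⟨(lt_of_lt_of_le hn (min_le_left _ _)).le, ?_⟩, h3⟩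
      have := lt_of_lt_of_le hn (min_le_right _ _)
      linarith
    · rintro ⟨n, t, ⟨h1, h2⟩, h3⟩
      have : (0 : ℝ) < 1 / ((n : ℝ) + 1) := by positivity
      exact ⟨t, by linarith, by linarith, h3⟩
  rw [e]
  apply MeasurableSet.iUnion
  intro n
  apply IsClosed.measurableSet
  set K := Icc (1 / ((n : ℝ) + 1)) (a - 1 / ((n : ℝ) + 1)) with hK
  have h1 : IsClosed {q : (E3 × S2) × K | q.1.1 + (q.2 : ℝ) • (q.1.2 : E3) ∉ V} := by
    have hc : Continuous fun q : (E3 × S2) × K => q.1.1 + (q.2 : ℝ) • (q.1.2 : E3) := by fun_prop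
    exact hVo.isClosed_compl.preimage hc
  have : CompactSpace K := isCompact_iff_compactSpace.mp isCompact_Icc
  have h2 := isClosedMap_fst_of_compactSpace (X := E3 × S2) (Y := K) _ h1
  convert h2 using 1
  ext p
  constructor
  · rintro ⟨t, ht, h3⟩
    exact ⟨(p, ⟨t, ht⟩), h3, rfl⟩
  · rintro ⟨q, hq, rfl⟩
    exact ⟨q.2, q.2.2, hq⟩

end exit

/-- The ray integral. -/
noncomputable def ray (V : Set E3) (k : ℝ → ℝ) (f : E3 → ℝ) (r : E3) (w : S2) : ℝ :=
  ∫ x in (0 : ℝ)..exitD V r w, k x * f (r + x • (w : E3))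

/-- The averaged ray integral. -/
noncomputable def op (V : Set E3) (k : ℝ → ℝ) (f : E3 → ℝ) (r : E3) : ℝ :=
  ∫ w, ray V k f r w ∂pr

section operators

variable {V : Set E3} {R : ℝ} (hV : DiamLt V R) (hVo : IsOpen V)

include hV hVo in
lemma measurable_ray {k : ℝ → ℝ} (hk : Continuous k) {f : E3 → ℝ} (hf : Measurable f) :
    Measurable fun p : E3 × S2 => ray V k f p.1 p.2 := by
  have h1 : ∀ p : E3 × S2, ray V k f p.1 p.2 =
      ∫ x, ({q : (E3 × S2) × ℝ | 0 < q.2 ∧ q.2 ≤ exitD V q.1.1 q.1.2}).indicator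
        (fun q => k q.2 * f (q.1.1 + q.2 • (q.1.2 : E3))) (p, x) := by
    intro p
    unfold ray
    rw [intervalIntegral.integral_of_le (exitD_nonneg _ _ _), ← integral_indicator measurableSet_Ioc]
    congr 1
  have hms : MeasurableSet {q : (E3 × S2) × ℝ | 0 < q.2 ∧ q.2 ≤ exitD V q.1.1 q.1.2} := by
    apply MeasurableSet.inter
    · exact measurableSet_lt measurable_const measurable_snd
    · exact measurableSet_le measurable_snd ((measurable_exitD hV hVo).comp measurable_fst)
  have hc : Measurable fun q : (E3 × S2) × ℝ => k q.2 * f (q.1.1 + q.2 • (q.1.2 : E3)) := by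
    apply (hk.measurable.comp measurable_snd).mul
    apply hf.comp
    have : Continuous fun q : (E3 × S2) × ℝ => q.1.1 + q.2 • (q.1.2 : E3) := by fun_prop
    exact this.measurable
  have h2 : StronglyMeasurable (({q : (E3 × S2) × ℝ | 0 < q.2 ∧ q.2 ≤ exitD V q.1.1 q.1.2}).indicator
        (fun q => k q.2 * f (q.1.1 + q.2 • (q.1.2 : E3)))) := (hc.indicator hms).stronglyMeasurable
  have h3 := h2.integral_prod_right' (ν := (volume : Measure ℝ))
  have e : (fun p : E3 × S2 => ray V k f p.1 p.2) = fun p => ∫ x, ({q : (E3 × S2) × ℝ | 0 < q.2 ∧ q.2 ≤ exitD V q.1.1 q.1.2}).indicator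
        (fun q => k q.2 * f (q.1.1 + q.2 • (q.1.2 : E3))) (p, x) := funext h1
  rw [e]
  exact h3.measurable

include hV hVo in
lemma measurable_op {k : ℝ → ℝ} (hk : Continuous k) {f : E3 → ℝ} (hf : Measurable f) :
    Measurable (op V k f) :=
  ((measurable_ray hV hVo hk hf).stronglyMeasurable.integral_prod_right (ν := pr)).measurable

lemma intervalIntegrable_ray {k : ℝ → ℝ} (hk : Continuous k) {f : E3 → ℝ} (hf : Measurable f)
    {C : ℝ} (hC : ∀ r, |f r| ≤ C) (r : E3) (w : S2) (a b : ℝ) :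
    IntervalIntegrable (fun x => k x * f (r + x • (w : E3))) volume a b := by
  rw [intervalIntegrable_iff]
  have hk2 : IntegrableOn (fun x => C * |k x|) (uIoc a b) volume :=
    intervalIntegrable_iff.mp ((continuous_const.mul hk.abs).intervalIntegrable a b)
  refine Integrable.mono' hk2 ?_ ?_
  · apply Measurable.aestronglyMeasurable
    apply hk.measurable.mul
    apply hf.comp
    have : Continuous fun x : ℝ => r + x • (w : E3) := by fun_prop
    exact this.measurable
  · refine Eventually.of_forall fun x => ?_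
    rw [Real.norm_eq_abs, abs_mul, mul_comm]
    exact mul_le_mul_of_nonneg_right (hC _) (abs_nonneg _)

/-- Bound of a ray integral by a majorant. -/
lemma ray_bound {k K : ℝ → ℝ} (hK : Continuous K) (hkK : ∀ x, 0 ≤ x → |k x| ≤ K x)
    {f : E3 → ℝ} {C : ℝ} (hC : ∀ r, |f r| ≤ C) (r : E3) (w : S2) :
    |ray V k f r w| ≤ C * ∫ x in (0 : ℝ)..exitD V r w, K x := by
  unfold ray
  rw [← Real.norm_eq_abs, ← intervalIntegral.integral_const_mul]
  apply intervalIntegral.norm_integral_le_of_norm_le (exitD_nonneg _ _ _)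
  · refine Eventually.of_forall fun x hx => ?_
    rw [Real.norm_eq_abs, abs_mul]
    have h0 := hkK x hx.1.le
    have h1 := hC (r + x • (w : E3))
    have h2 := abs_nonneg (k x)
    have h3 := abs_nonneg (f (r + x • (w : E3)))
    calc |k x| * |f (r + x • (w : E3))| ≤ K x * C := mul_le_mul h0 h1 h3 (h2.trans h0)
      _ = C * K x := mul_comm _ _
  · exact (continuous_const.mul hK).intervalIntegrable _ _

include hV in
/-- Crude bound. -/
lemma ray_bound_crude {k : ℝ → ℝ} {B : ℝ} (hB : ∀ x, 0 ≤ x → x ≤ R → |k x| ≤ B)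
    {f : E3 → ℝ} {C : ℝ} (hC : ∀ r, |f r| ≤ C) (r : E3) (w : S2) :
    |ray V k f r w| ≤ C * B * R := by
  have hB0 : 0 ≤ B := (abs_nonneg _).trans (hB 0 le_rfl hV.1.le)
  have hC0 : 0 ≤ C := (abs_nonneg _).trans (hC 0)
  unfold ray
  rw [← Real.norm_eq_abs]
  have h1 : ‖∫ x in (0 : ℝ)..exitD V r w, k x * f (r + x • (w : E3))‖ ≤
      (C * B) * |exitD V r w - 0| := by
    apply intervalIntegral.norm_integral_le_of_norm_le_const
    intro x hx
    rw [uIoc_of_le (exitD_nonneg _ _ _)] at hx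
    rw [Real.norm_eq_abs, abs_mul]
    have h0 := hB x hx.1.le (hx.2.trans (exitD_le hV r w))
    calc |k x| * |f (r + x • (w : E3))| ≤ B * C := mul_le_mul h0 (hC _) (abs_nonneg _) hB0
      _ = C * B := mul_comm _ _
  rw [sub_zero, abs_of_nonneg (exitD_nonneg _ _ _)] at h1
  exact h1.trans (mul_le_mul_of_nonneg_left (exitD_le hV r w) (mul_nonneg hC0 hB0))

include hV hVo in
lemma integrable_ray {k : ℝ → ℝ} (hk : Continuous k) {f : E3 → ℝ} (hf : Measurable f)
    {C : ℝ} (hC : ∀ r, |f r| ≤ C) (r : E3) : Integrable (fun w => ray V k f r w) pr := by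
  obtain ⟨B, hB⟩ := (isCompact_Icc (a := (0 : ℝ)) (b := R)).exists_bound_of_continuousOn hk.continuousOn
  have hB' : ∀ x, 0 ≤ x → x ≤ R → |k x| ≤ B := fun x h1 h2 => hB x ⟨h1, h2⟩
  apply Integrable.of_bound (C := C * B * R)
  · exact ((measurable_ray hV hVo hk hf).comp (measurable_prodMk_left (x := r))).aestronglyMeasurable
  · exact Eventually.of_forall fun w => ray_bound_crude hV hB' hC r w

omit hV hVo in
lemma op_bound {k : ℝ → ℝ} {f : E3 → ℝ} (r : E3) {c : ℝ} (h : ∀ w, |ray V k f r w| ≤ c) :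
    |op V k f r| ≤ c := by
  unfold op
  have h1 := norm_integral_le_of_norm_le_const (μ := pr) (f := fun w => ray V k f r w) (C := c)
    (Eventually.of_forall h)
  simpa using h1

lemma ray_add {k : ℝ → ℝ} (hk : Continuous k) {f g : E3 → ℝ} (hf : Measurable f)
    (hg : Measurable g) {C C' : ℝ} (hC : ∀ r, |f r| ≤ C) (hC' : ∀ r, |g r| ≤ C') (r : E3) (w : S2) :
    ray V k (fun r => f r + g r) r w = ray V k f r w + ray V k g r w := by
  unfold ray
  rw [← intervalIntegral.integral_add (intervalIntegrable_ray hk hf hC r w _ _)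
    (intervalIntegrable_ray hk hg hC' r w _ _)]
  congr 1
  ext x
  ring

lemma ray_add_kernel {k k' : ℝ → ℝ} (hk : Continuous k) (hk' : Continuous k') {f : E3 → ℝ}
    (hf : Measurable f) {C : ℝ} (hC : ∀ r, |f r| ≤ C) (r : E3) (w : S2) :
    ray V (fun x => k x + k' x) f r w = ray V k f r w + ray V k' f r w := by
  unfold ray
  rw [← intervalIntegral.integral_add (intervalIntegrable_ray hk hf hC r w _ _)
    (intervalIntegrable_ray hk' hf hC r w _ _)]
  congr 1
  ext x
  ring

lemma ray_smul (k : ℝ → ℝ) (f : E3 → ℝ) (c : ℝ) (r : E3) (w : S2) :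
    ray V k (fun r => c * f r) r w = c * ray V k f r w := by
  unfold ray
  rw [← intervalIntegral.integral_const_mul]
  congr 1
  ext x
  ring

lemma ray_smul_kernel (k : ℝ → ℝ) (f : E3 → ℝ) (c : ℝ) (r : E3) (w : S2) :
    ray V (fun x => c * k x) f r w = c * ray V k f r w := by
  unfold ray
  rw [← intervalIntegral.integral_const_mul]
  congr 1
  ext x
  ring

lemma ray_congr {k : ℝ → ℝ} {f g : E3 → ℝ} (r : E3) (w : S2)
    (h : ∀ x, 0 < x → x < exitD V r w → f (r + x • (w : E3)) = g (r + x • (w : E3))) :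
    ray V k f r w = ray V k g r w := by
  unfold ray
  rw [intervalIntegral.integral_of_le (exitD_nonneg _ _ _),
    intervalIntegral.integral_of_le (exitD_nonneg _ _ _), integral_Ioc_eq_integral_Ioo,
    integral_Ioc_eq_integral_Ioo]
  apply setIntegral_congr_fun measurableSet_Ioo
  intro x hx
  show k x * f _ = k x * g _
  rw [h x hx.1 hx.2]

lemma ray_nonneg {k : ℝ → ℝ} (hk : ∀ x, 0 ≤ x → 0 ≤ k x) {f : E3 → ℝ} (hf : ∀ r, 0 ≤ f r)
    (r : E3) (w : S2) : 0 ≤ ray V k f r w :=
  intervalIntegral.integral_nonneg (exitD_nonneg _ _ _) fun x hx => mul_nonneg (hk x hx.1) (hf _)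

end operators

end Pool.Agent.R239.Transp
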