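import Pool.Agent.R239.Transp.Solve

/-!
Differentiability in `lam` at `lam = 1`.
-/

open Set Topology Filter MeasureTheory Metric

namespace Pool.Agent.R239.Transp

section

variable {V : Set E3} {R : ℝ} (hV : DiamLt V R) (hVo : IsOpen V)

lemma hasDerivAt_of_quadratic {f : ℝ → ℝ} {d C h0 : ℝ} (hh0 : 0 < h0)
    (h : ∀ t, |t| ≤ h0 → |f (1 + t) - f 1 - t * d| ≤ C * t ^ 2) : HasDerivAt f d 1 := by
  rw [hasDerivAt_iff_isLittleO_nhds_zero]
  have h1 : (fun t : ℝ => f (1 + t) - f 1 - t • d) =O[𝓝 0] fun t => t ^ 2 := by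
    apply Asymptotics.IsBigO.of_bound C
    filter_upwards [Metric.closedBall_mem_nhds (0 : ℝ) hh0] with t ht
    rw [mem_closedBall_zero_iff, Real.norm_eq_abs] at ht
    rw [Real.norm_eq_abs, Real.norm_eq_abs, abs_of_nonneg (sq_nonneg t), smul_eq_mul]
    exact h t ht
  refine h1.trans_isLittleO ?_
  have : (fun t : ℝ => t ^ 2) =o[𝓝 0] fun t : ℝ => t ^ 1 := Asymptotics.isLittleO_pow_pow (by norm_num)
  simpa using this

include hV hVo in
theorem deriv_main (m : ℝ → E3 → ℝ) (hm : ∀ lam, 0 < lam → IsAvg V lam (m lam)) :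
    ∃ md : E3 → ℝ, Measurable md ∧ (∃ C, ∀ r, |md r| ≤ C) ∧
      (∀ r, md r = op V kd (m 1) r + op V (kl 1) md r) ∧
      ∀ r w, HasDerivAt (fun lam => ray V (kl lam) (m lam) r w)
        (ray V kd (m 1) r w + ray V (kl 1) md r w) 1 := by
  have hR := hV.1
  obtain ⟨C1, hC1⟩ := (hm 1 one_pos).bdd
  have hC10 : 0 ≤ C1 := (abs_nonneg _).trans (hC1 0)
  have hm1 := (hm 1 one_pos).meas
  have hsrc : ∀ r, |op V kd (m 1) r| ≤ C1 * 1 * R := fun r =>
    op_bound r fun w => ray_bound_crude hV (fun x h1 _ => kd_abs_le_one h1) hC1 r w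
  have he : 0 < Real.exp (-(1 * R)) := Real.exp_pos _
  have he1 : Real.exp (-(1 * R)) ≤ 1 := Real.exp_le_one_iff.mpr (by linarith)
  obtain ⟨md, md1, md2, md3, -⟩ := solve hV hVo (continuous_kl 1) (q := 1 - Real.exp (-(1 * R)))
    (by linarith) (by linarith) (op_kl_bound hV one_pos)
    (measurable_op hV hVo continuous_kd hm1) hsrc
  set Cd : ℝ := C1 * 1 * R / (1 - (1 - Real.exp (-(1 * R)))) with hCd
  have hCd0 : 0 ≤ Cd := (abs_nonneg _).trans (md2 0)
  refine ⟨md, md1, ⟨Cd, md2⟩, md3, ?_⟩
  set B0 : ℝ := R + 2 * R ^ 2 with hB0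
  have hB00 : 0 ≤ B0 := by positivity
  set A : ℝ := C1 * B0 * R + Cd * (1 + B0) * R with hA
  have hA0 : 0 ≤ A := by positivity
  set h0 : ℝ := min (1 / 2) (1 / R) with hh0
  have hh0pos : 0 < h0 := lt_min (by norm_num) (by positivity)
  -- the main identity and bounds
  have main : ∀ h, |h| ≤ h0 → ∀ C, (∀ r, |m (1 + h) r - m 1 r - h * md r| ≤ C) → ∀ r w,
      |ray V (kl (1 + h)) (m (1 + h)) r w - ray V (kl 1) (m 1) r w
        - h * (ray V kd (m 1) r w + ray V (kl 1) md r w)| ≤
      A * h ^ 2 + (1 - Real.exp (-(2 * R))) * C := by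
    intro h hh C hC r w
    have hh1 : |h| ≤ 1 / 2 := hh.trans (min_le_left _ _)
    have hh2 : |h| * R ≤ 1 := by
      have : |h| ≤ 1 / R := hh.trans (min_le_right _ _)
      rwa [le_div_iff₀ hR] at this
    have hpos : 0 < 1 + h := by
      have := (abs_le.mp hh1).1
      linarith
    have hle : 1 + h ≤ 2 := by
      have := (abs_le.mp hh1).2
      linarith
    have hmh := (hm (1 + h) hpos).meas
    have hC0 : 0 ≤ C := (abs_nonneg _).trans (hC 0)
    set d : E3 → ℝ := fun r => m (1 + h) r - m 1 r - h * md r with hd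
    have hdm : Measurable d := (hmh.sub hm1).sub (measurable_const.mul md1)
    set rem : ℝ → ℝ := fun x => kl (1 + h) x - kl 1 x - h * kd x with hrem
    have hremc : Continuous rem :=
      ((continuous_kl _).sub (continuous_kl _)).sub (continuous_const.mul continuous_kd)
    set dk : ℝ → ℝ := fun x => kl (1 + h) x - kl 1 x with hdk
    have hdkc : Continuous dk := (continuous_kl _).sub (continuous_kl _)
    have hremb : ∀ x, 0 ≤ x → x ≤ R → |rem x| ≤ B0 * h ^ 2 := fun x h1 h2 =>
      rem_bound hh1 hh2 h1 h2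
    have hdkb : ∀ x, 0 ≤ x → x ≤ R → |dk x| ≤ (1 + B0) * |h| := by
      intro x h1 h2
      have e : dk x = rem x + h * kd x := by simp only [hdk, hrem]; ring
      rw [e]
      have h3 : B0 * h ^ 2 ≤ B0 * |h| := by
        apply mul_le_mul_of_nonneg_left _ hB00
        rw [← sq_abs]
        nlinarith [abs_nonneg h]
      calc |rem x + h * kd x| ≤ |rem x| + |h| * |kd x| := by
            rw [← abs_mul]; exact abs_add_le _ _
        _ ≤ B0 * |h| + |h| * 1 := add_le_add ((hremb x h1 h2).trans h3)
            (mul_le_mul_of_nonneg_left (kd_abs_le_one h1) (abs_nonneg h))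
        _ = _ := by ring
    have hmdm : Measurable fun r => h * md r := measurable_const.mul md1
    have hmdb : ∀ r, |h * md r| ≤ |h| * Cd := fun r => by
      rw [abs_mul]; exact mul_le_mul_of_nonneg_left (md2 r) (abs_nonneg h)
    have hsum_b : ∀ r, |m 1 r + h * md r| ≤ C1 + |h| * Cd := fun r =>
      (abs_add_le _ _).trans (add_le_add (hC1 r) (hmdb r))
    have s1 : ray V (kl (1 + h)) (m (1 + h)) r w = ray V (kl (1 + h)) d r w +
        (ray V (kl (1 + h)) (m 1) r w + h * ray V (kl (1 + h)) md r w) := by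
      have e : m (1 + h) = fun r => d r + (m 1 r + h * md r) := by
        funext r; simp only [hd]; ring
      conv_lhs => rw [e]
      rw [ray_add (f := d) (g := fun r => m 1 r + h * md r) (continuous_kl _) hdm
        (hm1.add hmdm) hC hsum_b,
        ray_add (f := m 1) (g := fun r => h * md r) (continuous_kl _) hm1 hmdm hC1 hmdb, ray_smul]
    have s2 : ray V (kl (1 + h)) (m 1) r w = ray V (kl 1) (m 1) r w + (h * ray V kd (m 1) r w +
        ray V rem (m 1) r w) := by
      have e : kl (1 + h) = fun x => kl 1 x + (h * kd x + rem x) := by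
        funext x; simp only [hrem]; ring
      conv_lhs => rw [e]
      rw [ray_add_kernel (k := kl 1) (k' := fun x => h * kd x + rem x) (continuous_kl _)
        ((continuous_const.mul continuous_kd).add hremc) hm1 hC1,
        ray_add_kernel (k := fun x => h * kd x) (k' := rem)
        (continuous_const.mul continuous_kd) hremc hm1 hC1, ray_smul_kernel]
    have s3 : ray V (kl (1 + h)) md r w = ray V (kl 1) md r w + ray V dk md r w := by
      have e : kl (1 + h) = fun x => kl 1 x + dk x := by
        funext x; simp only [hdk]; ring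
      conv_lhs => rw [e]
      rw [ray_add_kernel (continuous_kl _) hdkc md1 md2]
    have e : ray V (kl (1 + h)) (m (1 + h)) r w - ray V (kl 1) (m 1) r w
        - h * (ray V kd (m 1) r w + ray V (kl 1) md r w) =
        ray V (kl (1 + h)) d r w + (ray V rem (m 1) r w + h * ray V dk md r w) := by
      rw [s1, s2, s3]; ring
    rw [e]
    have b1 := ray_bound_crude hV hremb hC1 r w
    have b2 := ray_bound_crude hV hdkb md2 r w
    have b3 : |ray V (kl (1 + h)) d r w| ≤ (1 - Real.exp (-(2 * R))) * C := by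
      have h4 := ray_bound (V := V) (continuous_kl (1 + h))
        (fun x _ => (abs_of_nonneg (kl_nonneg hpos.le x)).le) hC r w
      rw [integral_kl] at h4
      refine h4.trans ?_
      rw [mul_comm]
      apply mul_le_mul_of_nonneg_right _ hC0
      have : Real.exp (-(2 * R)) ≤ Real.exp (-((1 + h) * exitD V r w)) := by
        apply Real.exp_le_exp.mpr
        have h5 := exitD_le hV r w
        have h6 := exitD_nonneg V r w
        nlinarith
      linarith
    have b4 : |h * ray V dk md r w| ≤ Cd * (1 + B0) * R * h ^ 2 := by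
      rw [abs_mul]
      refine (mul_le_mul_of_nonneg_left b2 (abs_nonneg h)).trans (le_of_eq ?_)
      rw [← sq_abs]
      ring
    calc |ray V (kl (1 + h)) d r w + (ray V rem (m 1) r w + h * ray V dk md r w)|
        ≤ |ray V (kl (1 + h)) d r w| + (|ray V rem (m 1) r w| + |h * ray V dk md r w|) := by
          refine (abs_add_le _ _).trans ?_
          gcongr
          exact abs_add_le _ _
      _ ≤ (1 - Real.exp (-(2 * R))) * C + (C1 * (B0 * h ^ 2) * R + Cd * (1 + B0) * R * h ^ 2) :=
          add_le_add b3 (add_le_add b1 b4)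
      _ = _ := by rw [hA]; ring
  -- the uniform estimate for the averages
  have hdbound : ∀ h, |h| ≤ h0 → ∀ r, |m (1 + h) r - m 1 r - h * md r| ≤
      A * h ^ 2 / (1 - (1 - Real.exp (-(2 * R)))) := by
    intro h hh
    have hh1 : |h| ≤ 1 / 2 := hh.trans (min_le_left _ _)
    have hpos : 0 < 1 + h := by
      have := (abs_le.mp hh1).1
      linarith
    obtain ⟨Ch, hCh⟩ := (hm (1 + h) hpos).bdd
    have hmh := (hm (1 + h) hpos).meas
    apply sup_lemma (C0 := Ch + C1 + |h| * Cd)
    · intro r
      calc |m (1 + h) r - m 1 r - h * md r| ≤ |m (1 + h) r - m 1 r| + |h * md r| := abs_sub _ _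
        _ ≤ (|m (1 + h) r| + |m 1 r|) + |h * md r| := by
            gcongr
            exact abs_sub _ _
        _ ≤ (Ch + C1) + |h| * Cd := by
            rw [abs_mul]
            exact add_le_add (add_le_add (hCh r) (hC1 r))
              (mul_le_mul_of_nonneg_left (md2 r) (abs_nonneg h))
    · linarith [Real.exp_pos (-(2 * R))]
    · intro C hC r
      have e : m (1 + h) r - m 1 r - h * md r = ∫ w, (ray V (kl (1 + h)) (m (1 + h)) r w
          - ray V (kl 1) (m 1) r w - h * (ray V kd (m 1) r w + ray V (kl 1) md r w)) ∂pr := by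
        have i1 := integrable_ray hV hVo (continuous_kl (1 + h)) hmh hCh r
        have i2 := integrable_ray hV hVo (continuous_kl 1) hm1 hC1 r
        have i3 := integrable_ray hV hVo continuous_kd hm1 hC1 r
        have i4 := integrable_ray hV hVo (continuous_kl 1) md1 md2 r
        have i12 : Integrable (fun w => ray V (kl (1 + h)) (m (1 + h)) r w - ray V (kl 1) (m 1) r w) pr :=
          i1.sub i2
        have i34 : Integrable (fun w => h * (ray V kd (m 1) r w + ray V (kl 1) md r w)) pr :=
          (i3.add i4).const_mul h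
        rw [integral_sub i12 i34, integral_sub i1 i2, integral_const_mul, integral_add i3 i4]
        rw [(hm (1 + h) hpos).eq r, (hm 1 one_pos).eq r, md3 r]
        simp only [op]
        ring
      rw [e]
      have h1 := norm_integral_le_of_norm_le_const (μ := pr)
        (f := fun w => ray V (kl (1 + h)) (m (1 + h)) r w
          - ray V (kl 1) (m 1) r w - h * (ray V kd (m 1) r w + ray V (kl 1) md r w))
        (C := A * h ^ 2 + (1 - Real.exp (-(2 * R))) * C)
        (Eventually.of_forall fun w => main h hh C hC r w)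
      simpa using h1
  intro r w
  apply hasDerivAt_of_quadratic (C := A + (1 - Real.exp (-(2 * R))) * (A / (1 - (1 - Real.exp (-(2 * R))))))
    hh0pos
  intro t ht
  have h1 := main t ht _ (hdbound t ht) r w
  refine h1.trans (le_of_eq ?_)
  ring

end

end Pool.Agent.R239.Transp
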