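import Pool.Agent.R239.Transp.Basic

/-!
The slab with a chamber.
-/

open Set Topology Filter MeasureTheory Metric

namespace Pool.Agent.R239.Transp

/-- The domain: a thin slab leading to a chamber. -/
def dom (l ρ : ℝ) : Set E3 :=
  {p | (-1 < p 0 ∧ p 0 < l + 1 ∧ |p 1| < 1 ∧ |p 2| < ρ) ∨
    (l < p 0 ∧ p 0 < l + 2 ∧ |p 1| < 1 ∧ |p 2| < 1)}

/-- The axis direction. -/
noncomputable def w0 : S2 := ⟨EuclideanSpace.single 0 1, by simp⟩

lemma isOpen_dom (l ρ : ℝ) : IsOpen (dom l ρ) := by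
  have c : ∀ i : Fin 3, Continuous fun p : E3 => p i := fun i => by fun_prop
  apply IsOpen.union
  · exact (isOpen_lt continuous_const (c 0)).inter ((isOpen_lt (c 0) continuous_const).inter
      ((isOpen_lt (c 1).abs continuous_const).inter (isOpen_lt (c 2).abs continuous_const)))
  · exact (isOpen_lt continuous_const (c 0)).inter ((isOpen_lt (c 0) continuous_const).inter
      ((isOpen_lt (c 1).abs continuous_const).inter (isOpen_lt (c 2).abs continuous_const)))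

lemma sum_sq (w : S2) : (w : E3) 0 ^ 2 + (w : E3) 1 ^ 2 + (w : E3) 2 ^ 2 = 1 := by
  have h := norm_S2 w
  rw [EuclideanSpace.norm_eq, Real.sqrt_eq_one, Fin.sum_univ_three] at h
  simpa [sq_abs] using h

lemma coord (r : E3) (t : ℝ) (w : S2) (i : Fin 3) : (r + t • (w : E3)) i = r i + t * (w : E3) i := by
  simp

section

variable {l ρ : ℝ} (hl : 1 ≤ l) (hρ : 0 < ρ) (hρ1 : ρ ≤ 1)

include hl hρ1 in
lemma diam_dom : DiamLt (dom l ρ) (l + 8) := by
  refine ⟨by linarith, ?_⟩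
  have key : ∀ p ∈ dom l ρ, -1 < p 0 ∧ p 0 < l + 2 ∧ |p 1| < 1 ∧ |p 2| < 1 := by
    rintro p (⟨h1, h2, h3, h4⟩ | ⟨h1, h2, h3, h4⟩)
    · exact ⟨h1, by linarith, h3, by linarith⟩
    · exact ⟨by linarith, h2, h3, h4⟩
  intro p hp q hq
  obtain ⟨p1, p2, p3, p4⟩ := key p hp
  obtain ⟨q1, q2, q3, q4⟩ := key q hq
  rw [abs_lt] at p3 p4 q3 q4
  rw [EuclideanSpace.dist_eq, Real.sqrt_lt' (by linarith), Fin.sum_univ_three]
  simp only [Real.dist_eq, sq_abs]
  have h0 : (p 0 - q 0) ^ 2 < (l + 3) ^ 2 := by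
    apply sq_lt_sq' <;> linarith
  have h1 : (p 1 - q 1) ^ 2 < 2 ^ 2 := by
    apply sq_lt_sq' <;> linarith
  have h2 : (p 2 - q 2) ^ 2 < 2 ^ 2 := by
    apply sq_lt_sq' <;> linarith
  nlinarith

/-- Points of the domain to the left of the chamber are in the slab. -/
lemma slab_of_le {p : E3} (hp : p ∈ dom l ρ) (h : p 0 ≤ l) : |p 2| < ρ := by
  rcases hp with ⟨h1, h2, h3, h4⟩ | ⟨h1, h2, h3, h4⟩
  · exact h4
  · exact absurd h1 (not_lt.mpr h)

include hρ1 in
lemma chamber_of_gt {p : E3} (hp : p ∈ dom l ρ) (h : l < p 0) :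
    p 0 < l + 2 ∧ |p 1| < 1 ∧ |p 2| < 1 := by
  rcases hp with ⟨h1, h2, h3, h4⟩ | ⟨h1, h2, h3, h4⟩
  · exact ⟨by linarith, h3, by linarith⟩
  · exact ⟨h2, h3, h4⟩

include hρ1 in
/-- No two points of a ray at distance at least four are both in the chamber. -/
lemma not_both {r : E3} {w : S2} {s t : ℝ} (hst : 4 ≤ t - s) (hs : r + s • (w : E3) ∈ dom l ρ)
    (ht : r + t • (w : E3) ∈ dom l ρ) (h1 : l < (r + s • (w : E3)) 0) (h2 : l < (r + t • (w : E3)) 0) :
    False := by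
  obtain ⟨a1, a2, a3⟩ := chamber_of_gt hρ1 hs h1
  obtain ⟨b1, b2, b3⟩ := chamber_of_gt hρ1 ht h2
  rw [coord] at *
  rw [abs_lt] at a2 a3 b2 b3
  have e0 : ((t - s) * (w : E3) 0) ^ 2 < 2 ^ 2 := by apply sq_lt_sq' <;> linarith
  have e1 : ((t - s) * (w : E3) 1) ^ 2 < 2 ^ 2 := by apply sq_lt_sq' <;> linarith
  have e2 : ((t - s) * (w : E3) 2) ^ 2 < 2 ^ 2 := by apply sq_lt_sq' <;> linarith
  have hs := sum_sq w
  have h3 : (t - s) ^ 2 = ((t - s) * (w : E3) 0) ^ 2 + ((t - s) * (w : E3) 1) ^ 2 +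
      ((t - s) * (w : E3) 2) ^ 2 := by
    rw [mul_pow, mul_pow, mul_pow, ← mul_add, ← mul_add, hs, mul_one]
  nlinarith

include hρ1 in
lemma bandA (r : E3) (w : S2) (h : 5 ≤ exitD (dom l ρ) r w) : |(w : E3) 2| ≤ 8 * ρ := by
  have hin : ∀ t : ℝ, 0 < t → t < 5 → r + t • (w : E3) ∈ dom l ρ := fun t h1 h2 =>
    mem_of_lt_exitD h1 (by linarith)
  have close : ∀ s : ℝ, 0 < s → s + 1 / 4 < 5 → (r + s • (w : E3)) 0 ≤ l →
      (r + (s + 1 / 4) • (w : E3)) 0 ≤ l → |(w : E3) 2| ≤ 8 * ρ := by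
    intro s h1 h2 h3 h4
    have a1 := slab_of_le (hin s h1 (by linarith)) h3
    have a2 := slab_of_le (hin (s + 1 / 4) (by linarith) h2) h4
    rw [coord, abs_lt] at a1 a2
    rw [abs_le]
    constructor <;> linarith [a1.1, a1.2, a2.1, a2.2]
  rcases le_total 0 ((w : E3) 0) with hb | hb
  · have h1 : (r + (1 / 4 + 1 / 8 : ℝ) • (w : E3)) 0 ≤ l := by
      by_contra hcon
      rw [not_le] at hcon
      refine not_both hρ1 (s := 1 / 4 + 1 / 8) (t := 9 / 2) (by norm_num) (hin _ (by norm_num) (by norm_num))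
        (hin _ (by norm_num) (by norm_num)) hcon ?_
      rw [coord] at *
      nlinarith
    apply close (1 / 8) (by norm_num) (by norm_num)
    · rw [coord] at *
      nlinarith
    · rw [show (1 / 8 + 1 / 4 : ℝ) = 1 / 4 + 1 / 8 by norm_num]
      exact h1
  · have h1 : (r + (9 / 2 : ℝ) • (w : E3)) 0 ≤ l := by
      by_contra hcon
      rw [not_le] at hcon
      refine not_both hρ1 (s := 1 / 4) (t := 9 / 2) (by norm_num) (hin _ (by norm_num) (by norm_num))
        (hin _ (by norm_num) (by norm_num)) ?_ hcon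
      rw [coord] at *
      nlinarith
    apply close (9 / 2) (by norm_num) (by norm_num) h1
    rw [coord] at *
    nlinarith

lemma bandB {x t : ℝ} (ht : 0 < t) (hx : x ≤ l - t) (w : S2)
    (h : t ≤ exitD (dom l ρ) (x • (w0 : E3)) w) : |(w : E3) 2| ≤ 2 * ρ / t := by
  have h1 : x • (w0 : E3) + (t / 2) • (w : E3) ∈ dom l ρ := mem_of_lt_exitD (by linarith) (by linarith)
  have hw := sum_sq w
  have hw0 : (w : E3) 0 ≤ 1 := by nlinarith [sq_nonneg ((w : E3) 1), sq_nonneg ((w : E3) 2)]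
  have h2 : (x • (w0 : E3) + (t / 2) • (w : E3)) 0 ≤ l := by
    rw [coord]
    simp [w0]
    nlinarith
  have h3 := slab_of_le h1 h2
  rw [coord] at h3
  simp only [w0, PiLp.smul_apply, smul_eq_mul] at h3
  rw [show (EuclideanSpace.single (0 : Fin 3) (1 : ℝ)) 2 = 0 by simp, mul_zero, zero_add, abs_mul,
    abs_of_pos (by linarith : 0 < t / 2)] at h3
  rw [le_div_iff₀ ht]
  linarith

include hl hρ1 in
lemma roomC {x : ℝ} (h1 : l + 1 / 2 ≤ x) (h2 : x ≤ l + 3 / 2) (w : S2) :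
    1 / 2 ≤ exitD (dom l ρ) (x • (w0 : E3)) w := by
  apply le_exitD (diam_dom hl hρ1)
  intro t ht0 ht1
  have hw := sum_sq w
  have b0 : |(w : E3) 0| ≤ 1 := by
    rw [abs_le]; constructor <;> nlinarith [sq_nonneg ((w : E3) 1), sq_nonneg ((w : E3) 2)]
  have b1 : |(w : E3) 1| ≤ 1 := by
    rw [abs_le]; constructor <;> nlinarith [sq_nonneg ((w : E3) 0), sq_nonneg ((w : E3) 2)]
  have b2 : |(w : E3) 2| ≤ 1 := by
    rw [abs_le]; constructor <;> nlinarith [sq_nonneg ((w : E3) 0), sq_nonneg ((w : E3) 1)]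
  have c : ∀ a : ℝ, |a| ≤ 1 → |t * a| < 1 / 2 := by
    intro a ha
    rw [abs_mul, abs_of_pos ht0]
    nlinarith [abs_nonneg a]
  have c0 := abs_lt.mp (c _ b0)
  have c1 := c _ b1
  have c2 := c _ b2
  right
  rw [coord, coord, coord]
  simp only [w0, PiLp.smul_apply, smul_eq_mul]
  rw [show (EuclideanSpace.single (0 : Fin 3) (1 : ℝ)) 0 = 1 by simp,
    show (EuclideanSpace.single (0 : Fin 3) (1 : ℝ)) 1 = 0 by simp,
    show (EuclideanSpace.single (0 : Fin 3) (1 : ℝ)) 2 = 0 by simp, mul_one, mul_zero, zero_add,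
    zero_add]
  refine ⟨by linarith [c0.1], by linarith [c0.2], by linarith, by linarith⟩

include hl hρ hρ1 in
lemma exit0 : exitD (dom l ρ) 0 w0 = l + 2 := by
  apply le_antisymm
  · unfold exitD
    apply csInf_le (exitD_bddBelow _ _ _)
    refine ⟨by linarith, ?_⟩
    intro hcon
    rw [zero_add] at hcon
    rcases hcon with ⟨h1, h2, h3, h4⟩ | ⟨h1, h2, h3, h4⟩
    · simp [w0] at h2
      try linarith
    · simp [w0] at h2
  · apply le_exitD (diam_dom hl hρ1)
    intro t ht0 ht1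
    rw [zero_add]
    by_cases h : t < l + 1
    · left
      refine ⟨?_, ?_, ?_, ?_⟩
      · simp [w0]; linarith
      · simpa [w0] using h
      · simp [w0]
      · simpa [w0] using hρ
    · right
      rw [not_lt] at h
      refine ⟨?_, ?_, ?_, ?_⟩
      · simp [w0]; linarith
      · simpa [w0] using ht1
      · simp [w0]
      · simp [w0]

end

end Pool.Agent.R239.Transp
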