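import Pool.Agent.R239.Transp.Deriv
import Pool.Agent.R239.Transp.Geom

/-!
The sign of the derivative in the slab with a chamber.
-/

open Set Topology Filter MeasureTheory Metric

namespace Pool.Agent.R239.Transp

section

variable {V : Set E3} {R : ℝ} (hV : DiamLt V R) (hVo : IsOpen V)

include hV hVo in
lemma op_kl_src {f : E3 → ℝ} {C : ℝ} (hC : ∀ r, |f r| ≤ C) (r : E3) :
    |op V (kl 1) f r| ≤ C * src V r := by
  have h1 : ∀ w, ‖ray V (kl 1) f r w‖ ≤ C * (1 - Real.exp (-exitD V r w)) := by
    intro w
    have h := ray_bound (V := V) (continuous_kl 1)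
      (fun x _ => (abs_of_nonneg (kl_nonneg zero_le_one x)).le) hC r w
    rw [integral_kl, one_mul] at h
    exact h
  have h2 := norm_integral_le_of_norm_le ((integrable_src hV hVo r).const_mul C)
    (Eventually.of_forall h1)
  rw [integral_const_mul] at h2
  exact h2

/-- The averaged majorant. -/
noncomputable def maj (V : Set E3) (r : E3) : ℝ :=
  ∫ w, (2 - (2 + exitD V r w) * Real.exp (-exitD V r w)) ∂pr

lemma maj_integrand_bounds (V : Set E3) (r : E3) (w : S2) :
    0 ≤ 2 - (2 + exitD V r w) * Real.exp (-exitD V r w) ∧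
    2 - (2 + exitD V r w) * Real.exp (-exitD V r w) ≤ 2 ∧
    2 - (2 + exitD V r w) * Real.exp (-exitD V r w) ≤ exitD V r w := by
  set D := exitD V r w
  have hD : 0 ≤ D := exitD_nonneg V r w
  have h1 := integral_maj D
  have hc : Continuous fun x : ℝ => (1 + x) * Real.exp (-x) := by fun_prop
  refine ⟨?_, ?_, ?_⟩
  · rw [← h1]
    apply intervalIntegral.integral_nonneg hD
    intro x hx
    have := hx.1
    positivity
  · have : 0 ≤ (2 + D) * Real.exp (-D) := by positivity
    linarith
  · rw [← h1]
    have h2 : ∫ x in (0 : ℝ)..D, (1 + x) * Real.exp (-x) ≤ ∫ x in (0 : ℝ)..D, (1 : ℝ) := by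
      apply intervalIntegral.integral_mono_on hD (hc.intervalIntegrable _ _)
        (continuous_const.intervalIntegrable _ _)
      intro x hx
      have h := Real.add_one_le_exp x
      have h2 := Real.exp_pos (-x)
      calc (1 + x) * Real.exp (-x) ≤ Real.exp x * Real.exp (-x) :=
            mul_le_mul_of_nonneg_right (by linarith) h2.le
        _ = 1 := by rw [← Real.exp_add]; simp
    rw [intervalIntegral.integral_const, smul_eq_mul, mul_one, sub_zero] at h2
    exact h2

include hV hVo in
lemma integrable_maj (r : E3) :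
    Integrable (fun w => 2 - (2 + exitD V r w) * Real.exp (-exitD V r w)) pr := by
  apply Integrable.of_bound (C := 2)
  · apply Measurable.aestronglyMeasurable
    have h0 := (measurable_exitD hV hVo).comp (measurable_prodMk_left (x := r))
    have h1 : Measurable fun w : S2 => exitD V r w := h0
    exact measurable_const.sub ((measurable_const.add h1).mul (Real.measurable_exp.comp h1.neg))
  · refine Eventually.of_forall fun w => ?_
    obtain ⟨h1, h2, -⟩ := maj_integrand_bounds V r w
    rw [Real.norm_of_nonneg h1]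
    exact h2

include hV hVo in
lemma op_kd_maj {f : E3 → ℝ} {C : ℝ} (hC : ∀ r, |f r| ≤ C) (r : E3) :
    |op V kd f r| ≤ C * maj V r := by
  have h1 : ∀ w, ‖ray V kd f r w‖ ≤ C * (2 - (2 + exitD V r w) * Real.exp (-exitD V r w)) := by
    intro w
    have h := ray_bound (V := V) (K := fun x => (1 + x) * Real.exp (-x)) (by fun_prop)
      (fun x hx => kd_abs_le hx) hC r w
    rw [integral_maj] at h
    exact h
  have h2 := norm_integral_le_of_norm_le ((integrable_maj hV hVo r).const_mul C)
    (Eventually.of_forall h1)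
  rw [integral_const_mul] at h2
  exact h2

include hV hVo in
lemma maj_le_two (r : E3) : maj V r ≤ 2 := by
  have := avg_le _ (integrable_maj hV hVo r) ∅ MeasurableSet.empty 2 0
    (fun w _ => (maj_integrand_bounds V r w).2.1) (fun w hw => absurd hw (by simp)) (by norm_num)
  unfold maj
  simpa using this

end

/-- The derivative at the far end of the slab is negative for suitable parameters. -/
theorem sign_main : ∃ l ρ : ℝ, 1 ≤ l ∧ 0 < ρ ∧ ρ ≤ 1 ∧ ∀ m md : E3 → ℝ,
    IsAvg (dom l ρ) 1 m → (∀ r, 0 ≤ m r) → Measurable md → (∃ C, ∀ r, |md r| ≤ C) →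
    (∀ r, md r = op (dom l ρ) kd m r + op (dom l ρ) (kl 1) md r) →
    ray (dom l ρ) kd m 0 w0 + ray (dom l ρ) (kl 1) md 0 w0 < 0 := by
  set μ : ℝ := 2 * Real.exp 5 with hμ
  set ν : ℝ := 4 * Real.exp 5 * μ with hν
  have hμ0 : 0 < μ := by positivity
  have hν0 : 0 < ν := by positivity
  set l : ℝ := 15 * (2 * ν + 1) + 1 / 2 with hl
  have hl1 : 1 ≤ l := by linarith
  set S : ℝ := l * (1 + 2 * μ + ν) with hS
  have hS0 : 0 < S := by positivity
  have hSge : μ + ν ≤ S := by
    have : 1 * (1 + 2 * μ + ν) ≤ l * (1 + 2 * μ + ν) := by gcongr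
    linarith
  set t : ℝ := Real.exp (-l) / (8 * S) with ht
  have ht0 : 0 < t := by positivity
  have hel : Real.exp (-l) ≤ 1 := Real.exp_le_one_iff.mpr (by linarith)
  have hSt : S * t = Real.exp (-l) / 8 := by rw [ht]; field_simp
  have ht1 : t ≤ 1 := by
    have h1 : (1 : ℝ) ≤ S := by
      have : 1 * 1 ≤ l * (1 + 2 * μ + ν) := by
        apply mul_le_mul hl1 (by linarith) (by norm_num) (by linarith)
      linarith
    rw [ht, div_le_one (by positivity)]
    linarith
  set ε1 : ℝ := min (Real.exp (-5) / 2) (Real.exp (-l) / (8 * S)) with hε1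
  have hε1pos : 0 < ε1 := lt_min (by positivity) (by positivity)
  obtain ⟨t1, ht1pos, hkap⟩ := exists_kap_lt hε1pos
  set ρ : ℝ := min 1 (min (t1 / 8) (t1 * t / 2)) with hρ
  have hρ0 : 0 < ρ := lt_min one_pos (lt_min (by positivity) (by positivity))
  have hρ1 : ρ ≤ 1 := min_le_left _ _
  have hρ8 : 8 * ρ ≤ t1 := by
    have : ρ ≤ t1 / 8 := (min_le_right _ _).trans (min_le_left _ _)
    linarith
  have hρt : 2 * ρ / t ≤ t1 := by
    have : ρ ≤ t1 * t / 2 := (min_le_right _ _).trans (min_le_right _ _)
    rw [div_le_iff₀ ht0]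
    linarith
  refine ⟨l, ρ, hl1, hρ0, hρ1, ?_⟩
  intro m md hm hm0 hmd ⟨C0, hC0⟩ hmdeq
  obtain ⟨Cm, hCm⟩ := hm.bdd
  have hV := diam_dom hl1 hρ1
  have hVo := isOpen_dom l ρ
  set V := dom l ρ with hVdef
  -- kappa bounds
  have k1 : kap (8 * ρ) ≤ Real.exp (-5) / 2 :=
    ((kap_mono hρ8).trans hkap.le).trans (min_le_left _ _)
  have k2 : kap (2 * ρ / t) ≤ Real.exp (-l) / (8 * S) :=
    ((kap_mono hρt).trans hkap.le).trans (min_le_right _ _)
  -- the global source bound
  have hsrc : ∀ r, src V r ≤ 1 - Real.exp (-5) / 2 := by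
    intro r
    have h := avg_le _ (integrable_src hV hVo r) {w : S2 | |(w : E3) 2| ≤ 8 * ρ}
      (measurableSet_band _) (1 - Real.exp (-5)) 1 (by
        intro w hw
        have hD : exitD V r w < 5 := by
          by_contra hcon
          rw [not_lt] at hcon
          exact hw (bandA hρ1 r w hcon)
        have : Real.exp (-5) ≤ Real.exp (-exitD V r w) := Real.exp_le_exp.mpr (by linarith)
        linarith) (fun w _ => (src_integrand_bound V r w).2) (by
        have : Real.exp (-5) ≤ 1 := Real.exp_le_one_iff.mpr (by norm_num)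
        linarith)
    have h2 : pr.real {w : S2 | |(w : E3) 2| ≤ 8 * ρ} = kap (8 * ρ) := rfl
    rw [h2, one_mul] at h
    unfold src
    linarith
  have he5 : 0 < Real.exp (-5) := Real.exp_pos _
  have hee : Real.exp 5 * Real.exp (-5) = 1 := by rw [← Real.exp_add]; simp
  -- bound for m
  have hmμ : ∀ r, |m r| ≤ μ := by
    intro r
    have h := sup_lemma (a := 1) (q := 1 - Real.exp (-5) / 2) hCm (by linarith) (by
      intro C hC r
      have hC' : 0 ≤ C := (abs_nonneg _).trans (hC r)
      rw [hm.eq r]
      have h1 := op_kl_src hV hVo hC r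
      have h2 := src_nonneg V r
      have h3 := src_le_one hV hVo r
      calc |src V r + op V (kl 1) m r| ≤ |src V r| + |op V (kl 1) m r| := abs_add_le _ _
        _ ≤ 1 + C * src V r := by rw [abs_of_nonneg h2]; linarith
        _ ≤ 1 + C * (1 - Real.exp (-5) / 2) := by
            have := mul_le_mul_of_nonneg_left (hsrc r) hC'
            linarith
        _ = _ := by ring) r
    refine h.trans (le_of_eq ?_)
    rw [sub_sub_cancel, hμ, div_eq_iff (by positivity)]
    linear_combination -hee
  -- bound for md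
  have hmdν : ∀ r, |md r| ≤ ν := by
    intro r
    have h := sup_lemma (a := 2 * μ) (q := 1 - Real.exp (-5) / 2) hC0 (by linarith) (by
      intro C hC r
      have hC' : 0 ≤ C := (abs_nonneg _).trans (hC r)
      rw [hmdeq r]
      have h1 := op_kl_src hV hVo hC r
      have h2 := op_kd_maj hV hVo hmμ r
      have h3 := maj_le_two hV hVo r
      calc |op V kd m r + op V (kl 1) md r| ≤ |op V kd m r| + |op V (kl 1) md r| := abs_add_le _ _
        _ ≤ μ * maj V r + C * src V r := add_le_add h2 h1
        _ ≤ μ * 2 + C * (1 - Real.exp (-5) / 2) := by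
            have e1 := mul_le_mul_of_nonneg_left (hsrc r) hC'
            have e2 := mul_le_mul_of_nonneg_left h3 hμ0.le
            linarith
        _ = _ := by ring) r
    refine h.trans (le_of_eq ?_)
    rw [sub_sub_cancel, hν, div_eq_iff (by positivity)]
    linear_combination (-2 * μ) * hee
  -- bounds along the slab
  set τ : ℝ := t + 2 * kap (2 * ρ / t) with hτ
  have hτ0 : 0 ≤ τ := by have := kap_nonneg (2 * ρ / t); linarith
  have slab : ∀ x, 0 ≤ x → x ≤ l - t → src V (x • (w0 : E3)) ≤ τ ∧ maj V (x • (w0 : E3)) ≤ τ := by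
    intro x hx0 hx
    have hA : ∀ w, w ∉ {w : S2 | |(w : E3) 2| ≤ 2 * ρ / t} → exitD V (x • (w0 : E3)) w < t := by
      intro w hw
      by_contra hcon
      rw [not_lt] at hcon
      exact hw (bandB ht0 hx w hcon)
    have h2 : pr.real {w : S2 | |(w : E3) 2| ≤ 2 * ρ / t} = kap (2 * ρ / t) := rfl
    have hk := kap_nonneg (2 * ρ / t)
    constructor
    · have h := avg_le _ (integrable_src hV hVo (x • (w0 : E3))) {w : S2 | |(w : E3) 2| ≤ 2 * ρ / t}
        (measurableSet_band _) t 1 (by
          intro w hw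
          have h3 := hA w hw
          have h4 := Real.add_one_le_exp (-exitD V (x • (w0 : E3)) w)
          linarith) (fun w _ => (src_integrand_bound V _ w).2) ht0.le
      rw [h2] at h
      unfold src
      linarith
    · have h := avg_le _ (integrable_maj hV hVo (x • (w0 : E3))) {w : S2 | |(w : E3) 2| ≤ 2 * ρ / t}
        (measurableSet_band _) t 2 (by
          intro w hw
          have h3 := hA w hw
          have h4 := (maj_integrand_bounds V (x • (w0 : E3)) w).2.2
          linarith) (fun w _ => (maj_integrand_bounds V _ w).2.1) ht0.le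
      rw [h2] at h
      unfold maj
      linarith
  -- the integrand
  set F : ℝ → ℝ := fun x => kd x * m (x • (w0 : E3)) + kl 1 x * md (x • (w0 : E3)) with hF
  have hval : ray V kd m 0 w0 + ray V (kl 1) md 0 w0 = ∫ x in (0 : ℝ)..(l + 2), F x := by
    unfold ray
    rw [exit0 hl1 hρ0 hρ1]
    have i1 := intervalIntegrable_ray continuous_kd hm.meas hmμ 0 w0 0 (l + 2)
    have i2 := intervalIntegrable_ray (continuous_kl 1) hmd hmdν 0 w0 0 (l + 2)
    rw [← intervalIntegral.integral_add i1 i2]
    simp only [zero_add, hF]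
  have hFint : ∀ a b, IntervalIntegrable F volume a b := by
    intro a b
    have i1 := intervalIntegrable_ray continuous_kd hm.meas hmμ 0 w0 a b
    have i2 := intervalIntegrable_ray (continuous_kl 1) hmd hmdν 0 w0 a b
    have := i1.add i2
    simpa only [zero_add, hF] using this
  have hkl1 : ∀ x, kl 1 x = Real.exp (-x) := by intro x; unfold kl; simp
  have hkl_le : ∀ x, 0 ≤ x → |kl 1 x| ≤ 1 := by
    intro x hx
    rw [hkl1, abs_of_pos (Real.exp_pos _)]
    exact Real.exp_le_one_iff.mpr (by linarith)
  have hFabs : ∀ x a b, 0 ≤ x → |m (x • (w0 : E3))| ≤ a → |md (x • (w0 : E3))| ≤ b → |F x| ≤ a + b := by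
    intro x a b hx h1 h2
    calc |F x| ≤ |kd x * m (x • (w0 : E3))| + |kl 1 x * md (x • (w0 : E3))| := abs_add_le _ _
      _ = |kd x| * |m (x • (w0 : E3))| + |kl 1 x| * |md (x • (w0 : E3))| := by rw [abs_mul, abs_mul]
      _ ≤ 1 * a + 1 * b := add_le_add
          (mul_le_mul (kd_abs_le_one hx) h1 (abs_nonneg _) (by norm_num))
          (mul_le_mul (hkl_le x hx) h2 (abs_nonneg _) (by norm_num))
      _ = a + b := by ring
  -- first part
  have hlt : 0 ≤ l - t := by linarith
  have I1 : ∫ x in (0 : ℝ)..(l - t), F x ≤ (1 + 2 * μ + ν) * τ * l := by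
    have h1 : ‖∫ x in (0 : ℝ)..(l - t), F x‖ ≤ ((1 + 2 * μ + ν) * τ) * |l - t - 0| := by
      apply intervalIntegral.norm_integral_le_of_norm_le_const
      intro x hx
      rw [uIoc_of_le hlt] at hx
      obtain ⟨s1, s2⟩ := slab x hx.1.le hx.2
      have a1 : |m (x • (w0 : E3))| ≤ (1 + μ) * τ := by
        rw [hm.eq]
        have h1 := op_kl_src hV hVo hmμ (x • (w0 : E3))
        have h2 := src_nonneg V (x • (w0 : E3))
        calc |src V (x • (w0 : E3)) + op V (kl 1) m (x • (w0 : E3))|
            ≤ |src V (x • (w0 : E3))| + |op V (kl 1) m (x • (w0 : E3))| := abs_add_le _ _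
          _ ≤ src V (x • (w0 : E3)) + μ * src V (x • (w0 : E3)) := by
              rw [abs_of_nonneg h2]; linarith
          _ = (1 + μ) * src V (x • (w0 : E3)) := by ring
          _ ≤ (1 + μ) * τ := by gcongr
      have a2 : |md (x • (w0 : E3))| ≤ (μ + ν) * τ := by
        rw [hmdeq]
        have h1 := op_kl_src hV hVo hmdν (x • (w0 : E3))
        have h2 := op_kd_maj hV hVo hmμ (x • (w0 : E3))
        calc |op V kd m (x • (w0 : E3)) + op V (kl 1) md (x • (w0 : E3))|
            ≤ |op V kd m (x • (w0 : E3))| + |op V (kl 1) md (x • (w0 : E3))| := abs_add_le _ _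
          _ ≤ μ * maj V (x • (w0 : E3)) + ν * src V (x • (w0 : E3)) := add_le_add h2 h1
          _ ≤ μ * τ + ν * τ := by gcongr
          _ = _ := by ring
      refine (hFabs x _ _ hx.1.le a1 a2).trans (le_of_eq ?_)
      ring
    rw [sub_zero, abs_of_nonneg hlt] at h1
    have h2 : ((1 + 2 * μ + ν) * τ) * (l - t) ≤ (1 + 2 * μ + ν) * τ * l := by
      apply mul_le_mul_of_nonneg_left (by linarith) (by positivity)
    exact (le_abs_self _).trans (h1.trans h2)
  have I2 : ∫ x in (l - t)..l, F x ≤ (μ + ν) * t := by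
    have h1 : ‖∫ x in (l - t)..l, F x‖ ≤ (μ + ν) * |l - (l - t)| := by
      apply intervalIntegral.norm_integral_le_of_norm_le_const
      intro x hx
      rw [uIoc_of_le (by linarith)] at hx
      exact hFabs x _ _ (by linarith [hx.1]) (hmμ _) (hmdν _)
    rw [sub_sub_cancel, abs_of_pos ht0] at h1
    exact (le_abs_self _).trans h1
  -- the chamber
  have outer : ∀ x, l ≤ x → F x ≤ ν * Real.exp (-l) := by
    intro x hx
    have h1 : kd x * m (x • (w0 : E3)) ≤ 0 := by
      apply mul_nonpos_of_nonpos_of_nonneg _ (hm0 _)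
      unfold kd
      exact mul_nonpos_of_nonpos_of_nonneg (by linarith) (Real.exp_pos _).le
    have h2 : kl 1 x * md (x • (w0 : E3)) ≤ Real.exp (-l) * ν := by
      rw [hkl1]
      calc Real.exp (-x) * md (x • (w0 : E3)) ≤ Real.exp (-x) * ν := by
            apply mul_le_mul_of_nonneg_left ((le_abs_self _).trans (hmdν _)) (Real.exp_pos _).le
        _ ≤ Real.exp (-l) * ν := by
            apply mul_le_mul_of_nonneg_right _ hν0.le
            exact Real.exp_le_exp.mpr (by linarith)
    simp only [hF]
    linarith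
  have middle : ∀ x, l + 1 / 2 ≤ x → x ≤ l + 3 / 2 →
      F x ≤ ν * Real.exp (-l) - (l - 1 / 2) / 15 * Real.exp (-l) := by
    intro x h1 h2
    have hmx : 1 / 3 ≤ m (x • (w0 : E3)) := by
      rw [hm.eq]
      have h3 : 0 ≤ op V (kl 1) m (x • (w0 : E3)) := op_nonneg (fun x _ => kl_nonneg zero_le_one x) hm0 _
      have h4 : 1 / 3 ≤ src V (x • (w0 : E3)) := by
        have h5 : ∫ w, (1 / 3 : ℝ) ∂pr ≤ src V (x • (w0 : E3)) := by
          apply integral_mono (integrable_const _) (integrable_src hV hVo _)
          intro w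
          have h6 := roomC hl1 hρ1 h1 h2 w
          have h7 : Real.exp (-exitD V (x • (w0 : E3)) w) ≤ Real.exp (-(1 / 2)) :=
            Real.exp_le_exp.mpr (by linarith)
          have h8 : Real.exp (-(1 / 2 : ℝ)) ≤ 2 / 3 := by
            rw [Real.exp_neg, inv_le_comm₀ (Real.exp_pos _) (by norm_num)]
            have := Real.add_one_le_exp (1 / 2 : ℝ)
            norm_num at this ⊢
            linarith
          show (1 / 3 : ℝ) ≤ 1 - Real.exp (-exitD V (x • (w0 : E3)) w)
          linarith
        simpa using h5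
      linarith
    have h3 : kd x * m (x • (w0 : E3)) ≤ -((l - 1 / 2) / 15 * Real.exp (-l)) := by
      have e1 : kd x = -((x - 1) * Real.exp (-x)) := by unfold kd; ring
      have e2 : (l - 1 / 2) * (Real.exp (-l) / 5) ≤ (x - 1) * Real.exp (-x) := by
        have e3 : Real.exp (-l) / 5 ≤ Real.exp (-x) := by
          have e4 : Real.exp (-l) * Real.exp (-(3 / 2)) ≤ Real.exp (-x) := by
            rw [← Real.exp_add]
            exact Real.exp_le_exp.mpr (by linarith)
          have e5 : (1 : ℝ) / 5 ≤ Real.exp (-(3 / 2)) := by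
            rw [Real.exp_neg, le_inv_comm₀ (by norm_num) (Real.exp_pos _)]
            have e6 : Real.exp (3 / 2 : ℝ) = Real.exp 1 * Real.exp (1 / 2) := by
              rw [← Real.exp_add]; norm_num
            have e7 := Real.exp_one_lt_d9
            have e8 : Real.exp (1 / 2 : ℝ) ≤ 1.7 := by
              have e9 : Real.exp (1 / 2 : ℝ) ^ 2 = Real.exp 1 := by
                rw [← Real.exp_nat_mul]; norm_num
              by_contra hcon
              rw [not_le] at hcon
              have e91 := pow_lt_pow_left₀ hcon (by norm_num) two_ne_zero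
              rw [e9] at e91
              norm_num at e91
              linarith
            rw [e6]
            have e92 := mul_le_mul e7.le e8 (Real.exp_pos (1 / 2 : ℝ)).le (by norm_num)
            norm_num at e92 ⊢
            linarith
          have e10 := mul_le_mul_of_nonneg_left e5 (Real.exp_pos (-l)).le
          linarith
        apply mul_le_mul (by linarith) e3 (by positivity) (by linarith)
      rw [e1]
      have e11 : 0 ≤ (x - 1) * Real.exp (-x) := mul_nonneg (by linarith) (Real.exp_pos _).le
      have e12 : (x - 1) * Real.exp (-x) * (1 / 3) ≤ (x - 1) * Real.exp (-x) * m (x • (w0 : E3)) :=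
        mul_le_mul_of_nonneg_left hmx e11
      linarith
    have h4 : kl 1 x * md (x • (w0 : E3)) ≤ Real.exp (-l) * ν := by
      rw [hkl1]
      calc Real.exp (-x) * md (x • (w0 : E3)) ≤ Real.exp (-x) * ν := by
            apply mul_le_mul_of_nonneg_left ((le_abs_self _).trans (hmdν _)) (Real.exp_pos _).le
        _ ≤ Real.exp (-l) * ν := by
            apply mul_le_mul_of_nonneg_right _ hν0.le
            exact Real.exp_le_exp.mpr (by linarith)
    simp only [hF]
    linarith
  have upper : ∀ a b c : ℝ, a ≤ b → (∀ x, a ≤ x → x ≤ b → F x ≤ c) →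
      ∫ x in a..b, F x ≤ c * (b - a) := by
    intro a b c hab h
    have h1 := intervalIntegral.integral_mono_on hab (hFint a b)
      ((continuous_const (y := c)).intervalIntegrable a b) (fun x hx => h x hx.1 hx.2)
    rw [intervalIntegral.integral_const, smul_eq_mul] at h1
    linarith
  have I3 : ∫ x in l..(l + 2), F x ≤ -Real.exp (-l) := by
    have s1 := upper l (l + 1 / 2) (ν * Real.exp (-l)) (by linarith) fun x h1 _ => outer x h1
    have s2 := upper (l + 1 / 2) (l + 3 / 2) _ (by linarith) middle
    have s3 := upper (l + 3 / 2) (l + 2) (ν * Real.exp (-l)) (by linarith)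
      fun x h1 _ => outer x (by linarith)
    have e1 := intervalIntegral.integral_add_adjacent_intervals (hFint l (l + 1 / 2))
      (hFint (l + 1 / 2) (l + 3 / 2))
    have e2 := intervalIntegral.integral_add_adjacent_intervals (hFint l (l + 3 / 2))
      (hFint (l + 3 / 2) (l + 2))
    rw [← e2, ← e1]
    have e3 : (l - 1 / 2) / 15 = 2 * ν + 1 := by rw [hl]; ring
    rw [e3] at s2
    linarith
  have e1 := intervalIntegral.integral_add_adjacent_intervals (hFint 0 (l - t)) (hFint (l - t) l)
  have e2 := intervalIntegral.integral_add_adjacent_intervals (hFint 0 l) (hFint l (l + 2))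
  rw [hval, ← e2, ← e1]
  have hexp := Real.exp_pos (-l)
  have f1 : (1 + 2 * μ + ν) * τ * l = S * t + 2 * (S * kap (2 * ρ / t)) := by
    rw [hS, hτ]; ring
  have f2 : S * kap (2 * ρ / t) ≤ Real.exp (-l) / 8 := by
    calc S * kap (2 * ρ / t) ≤ S * (Real.exp (-l) / (8 * S)) := by gcongr
      _ = Real.exp (-l) / 8 := by field_simp
  have f3 : (μ + ν) * t ≤ S * t := by gcongr
  linarith

end Pool.Agent.R239.Transp
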