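import Pool.Agent.R239.Transp.Basic

/-!
Existence, uniqueness and differentiability of the solution of the transport equation.
-/

open Set Topology Filter MeasureTheory Metric

namespace Pool.Agent.R239.Transp

/-- The kernel `lam * exp (-lam x)`. -/
noncomputable def kl (lam x : ℝ) : ℝ := lam * Real.exp (-(lam * x))

/-- The derivative of the kernel at `lam = 1`. -/
noncomputable def kd (x : ℝ) : ℝ := (1 - x) * Real.exp (-x)

lemma continuous_kl (lam : ℝ) : Continuous (kl lam) := by unfold kl; fun_prop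
lemma continuous_kd : Continuous kd := by unfold kd; fun_prop

lemma kl_nonneg {lam : ℝ} (h : 0 ≤ lam) (x : ℝ) : 0 ≤ kl lam x :=
  mul_nonneg h (Real.exp_pos _).le

lemma integral_kl (lam D : ℝ) : ∫ x in (0 : ℝ)..D, kl lam x = 1 - Real.exp (-(lam * D)) := by
  have h : ∀ x ∈ uIcc 0 D, HasDerivAt (fun x => -Real.exp (-(lam * x))) (kl lam x) x := by
    intro x _
    have h1 : HasDerivAt (fun x : ℝ => -(lam * x)) (-(lam * 1)) x := ((hasDerivAt_id x).const_mul lam).neg
    have h2 : HasDerivAt (fun x => -Real.exp (-(lam * x))) (-(Real.exp (-(lam * x)) * -(lam * 1))) x :=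
      h1.exp.neg
    refine h2.congr_deriv ?_
    unfold kl
    ring
  rw [intervalIntegral.integral_eq_sub_of_hasDerivAt h ((continuous_kl lam).intervalIntegrable _ _)]
  simp
  ring

/-- The averaged source. -/
noncomputable def src (V : Set E3) (r : E3) : ℝ := ∫ w, (1 - Real.exp (-exitD V r w)) ∂pr

section

variable {V : Set E3} {R : ℝ} (hV : DiamLt V R) (hVo : IsOpen V)

lemma src_integrand_bound (V : Set E3) (r : E3) (w : S2) : 0 ≤ 1 - Real.exp (-exitD V r w) ∧
    1 - Real.exp (-exitD V r w) ≤ 1 := by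
  constructor
  · have := Real.exp_le_one_iff.mpr (neg_nonpos.mpr (exitD_nonneg V r w))
    linarith
  · linarith [Real.exp_pos (-exitD V r w)]

include hV hVo in
lemma measurable_src_integrand : Measurable fun p : E3 × S2 => 1 - Real.exp (-exitD V p.1 p.2) :=
  measurable_const.sub (Real.measurable_exp.comp (measurable_exitD hV hVo).neg)

include hV hVo in
lemma integrable_src (r : E3) : Integrable (fun w => 1 - Real.exp (-exitD V r w)) pr := by
  apply Integrable.of_bound (C := 1)
  · exact ((measurable_src_integrand hV hVo).comp (measurable_prodMk_left (x := r))).aestronglyMeasurable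
  · refine Eventually.of_forall fun w => ?_
    obtain ⟨h1, h2⟩ := src_integrand_bound V r w
    rw [Real.norm_of_nonneg h1]
    exact h2

include hV hVo in
lemma measurable_src : Measurable (src V) :=
  ((measurable_src_integrand hV hVo).stronglyMeasurable.integral_prod_right' (ν := pr)).measurable

lemma src_nonneg (V : Set E3) (r : E3) : 0 ≤ src V r :=
  integral_nonneg fun w => (src_integrand_bound V r w).1

include hV hVo in
lemma src_le_one (r : E3) : src V r ≤ 1 := by
  unfold src
  have := avg_le (fun w => 1 - Real.exp (-exitD V r w)) (integrable_src hV hVo r) ∅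
    MeasurableSet.empty 1 0 (fun w _ => (src_integrand_bound V r w).2) (fun w hw => absurd hw (by simp)) zero_le_one
  simpa using this

include hV hVo in
lemma op_add {k : ℝ → ℝ} (hk : Continuous k) {f g : E3 → ℝ} (hf : Measurable f)
    (hg : Measurable g) {C C' : ℝ} (hC : ∀ r, |f r| ≤ C) (hC' : ∀ r, |g r| ≤ C') (r : E3) :
    op V k (fun r => f r + g r) r = op V k f r + op V k g r := by
  unfold op
  rw [← integral_add (integrable_ray hV hVo hk hf hC r) (integrable_ray hV hVo hk hg hC' r)]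
  congr 1
  ext w
  exact ray_add hk hf hg hC hC' r w

include hV hVo in
lemma op_add_kernel {k k' : ℝ → ℝ} (hk : Continuous k) (hk' : Continuous k') {f : E3 → ℝ}
    (hf : Measurable f) {C : ℝ} (hC : ∀ r, |f r| ≤ C) (r : E3) :
    op V (fun x => k x + k' x) f r = op V k f r + op V k' f r := by
  unfold op
  rw [← integral_add (integrable_ray hV hVo hk hf hC r) (integrable_ray hV hVo hk' hf hC r)]
  congr 1
  ext w
  exact ray_add_kernel hk hk' hf hC r w

lemma op_smul (k : ℝ → ℝ) (f : E3 → ℝ) (c : ℝ) (r : E3) :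
    op V k (fun r => c * f r) r = c * op V k f r := by
  unfold op
  rw [← integral_const_mul]
  congr 1
  ext w
  exact ray_smul k f c r w

lemma op_nonneg {k : ℝ → ℝ} (hk : ∀ x, 0 ≤ x → 0 ≤ k x) {f : E3 → ℝ} (hf : ∀ r, 0 ≤ f r)
    (r : E3) : 0 ≤ op V k f r := integral_nonneg fun w => ray_nonneg hk hf r w

/-- Supremum bootstrap. -/
lemma sup_lemma {f : E3 → ℝ} {C0 a q : ℝ} (hb : ∀ r, |f r| ≤ C0) (hq : q < 1)
    (h : ∀ C, (∀ r, |f r| ≤ C) → ∀ r, |f r| ≤ a + q * C) (r : E3) : |f r| ≤ a / (1 - q) := by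
  have hbdd : BddAbove (range fun r => |f r|) := ⟨C0, by rintro _ ⟨r, rfl⟩; exact hb r⟩
  set s := ⨆ r, |f r| with hs
  have h1 : ∀ r, |f r| ≤ s := fun r => le_ciSup hbdd r
  have h2 : s ≤ a + q * s := ciSup_le fun r => h s h1 r
  refine (h1 r).trans ?_
  rw [le_div_iff₀ (by linarith)]
  linarith

include hV hVo in
/-- Neumann series. -/
theorem solve {k : ℝ → ℝ} (hk : Continuous k) {q : ℝ} (hq0 : 0 ≤ q) (hq1 : q < 1)
    (hq : ∀ f : E3 → ℝ, ∀ C, (∀ r, |f r| ≤ C) → ∀ r, |op V k f r| ≤ q * C)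
    {b : E3 → ℝ} (hb : Measurable b) {B : ℝ} (hB : ∀ r, |b r| ≤ B) :
    ∃ m : E3 → ℝ, Measurable m ∧ (∀ r, |m r| ≤ B / (1 - q)) ∧ (∀ r, m r = b r + op V k m r) ∧
      ((∀ r, 0 ≤ b r) → (∀ x, 0 ≤ x → 0 ≤ k x) → ∀ r, 0 ≤ m r) := by
  have hB0 : 0 ≤ B := (abs_nonneg _).trans (hB 0)
  let u : ℕ → E3 → ℝ := fun n => Nat.rec b (fun _ f => op V k f) n
  have u0 : u 0 = b := rfl
  have us : ∀ n, u (n + 1) = op V k (u n) := fun n => rfl
  have um : ∀ n, Measurable (u n) := by
    intro n
    induction n with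
    | zero => exact hb
    | succ n ih => rw [us]; exact measurable_op hV hVo hk ih
  have ub : ∀ n r, |u n r| ≤ B * q ^ n := by
    intro n
    induction n with
    | zero => intro r; rw [u0, pow_zero, mul_one]; exact hB r
    | succ n ih =>
      intro r
      rw [us, pow_succ]
      refine (hq (u n) _ ih r).trans (le_of_eq ?_)
      ring
  have hgeo : Summable fun n : ℕ => B * q ^ n := (summable_geometric_of_lt_one hq0 hq1).mul_left B
  have hsum : ∀ r, Summable fun n => u n r := fun r => Summable.of_norm_bounded hgeo fun n => ub n r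
  let m : E3 → ℝ := fun r => ∑' n, u n r
  let s : ℕ → E3 → ℝ := fun n r => ∑ i ∈ Finset.range n, u i r
  have sm : ∀ n, Measurable (s n) := fun n => Finset.measurable_sum _ fun i _ => um i
  have hlim : ∀ r, Tendsto (fun n => s n r) atTop (𝓝 (m r)) := fun r => (hsum r).hasSum.tendsto_sum_nat
  have mm : Measurable m := measurable_of_tendsto_metrizable sm (tendsto_pi_nhds.mpr hlim)
  have hms : ∀ n r, |m r - s n r| ≤ B * q ^ n / (1 - q) := by
    intro n r
    have e : m r - s n r = ∑' i, u (i + n) r := by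
      have := (hsum r).sum_add_tsum_nat_add n
      show (∑' n, u n r) - _ = _
      rw [← this]
      simp only [s]
      ring
    rw [e]
    have h1 : Summable fun i => B * q ^ n * q ^ i := (summable_geometric_of_lt_one hq0 hq1).mul_left _
    have h2 : ∀ i, ‖u (i + n) r‖ ≤ B * q ^ n * q ^ i := by
      intro i
      refine (ub (i + n) r).trans (le_of_eq ?_)
      rw [pow_add]; ring
    have h3 := tsum_of_norm_bounded h1.hasSum h2
    rw [tsum_mul_left, tsum_geometric_of_lt_one hq0 hq1] at h3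
    rw [div_eq_mul_inv]
    exact h3
  have mb : ∀ r, |m r| ≤ B / (1 - q) := by
    intro r
    have := hms 0 r
    simpa [s] using this
  have sb : ∀ n, ∃ C, ∀ r, |s n r| ≤ C := by
    intro n
    refine ⟨∑ i ∈ Finset.range n, B * q ^ i, fun r => ?_⟩
    exact (Finset.abs_sum_le_sum_abs _ _).trans (Finset.sum_le_sum fun i _ => ub i r)
  have sop : ∀ n r, op V k (s n) r = s (n + 1) r - b r := by
    intro n
    induction n with
    | zero =>
      intro r
      have e : s 0 = fun r => (0 : ℝ) * b r := by funext r; simp [s]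
      rw [e, op_smul]
      simp [s, u0]
    | succ n ih =>
      intro r
      have e : s (n + 1) = fun r => s n r + u n r := by
        funext r; simp only [s]; rw [Finset.sum_range_succ]
      obtain ⟨C, hC⟩ := sb n
      rw [e, op_add hV hVo hk (sm n) (um n) hC (ub n), ih, ← us]
      simp only [s]
      rw [Finset.sum_range_succ _ (n + 1)]
      ring
  refine ⟨m, mm, mb, ?_, ?_⟩
  · intro r
    have key : ∀ n, |m r - (b r + op V k m r)| ≤ 2 * (B / (1 - q)) * q ^ n := by
      intro n
      obtain ⟨C, hC⟩ := sb n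
      have e1 : m = fun r => s n r + (m r - s n r) := by funext r; ring
      have e2 : op V k m r = op V k (s n) r + op V k (fun r => m r - s n r) r := by
        conv_lhs => rw [e1]
        exact op_add hV hVo hk (sm n) (mm.sub (sm n)) hC (hms n) r
      have h1 := hq (fun r => m r - s n r) _ (hms n) r
      have h2 := hms (n + 1) r
      have e3 : m r - (b r + op V k m r) = (m r - s (n + 1) r) - op V k (fun r => m r - s n r) r := by
        rw [e2, sop]; ring
      rw [e3]
      have h3 : B * q ^ (n + 1) / (1 - q) = q * (B * q ^ n / (1 - q)) := by rw [pow_succ]; ring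
      rw [h3] at h2
      have h4 : q * (B * q ^ n / (1 - q)) ≤ B * q ^ n / (1 - q) := by
        apply mul_le_of_le_one_left _ hq1.le
        apply div_nonneg (mul_nonneg hB0 (pow_nonneg hq0 n)) (by linarith)
      calc |(m r - s (n + 1) r) - op V k (fun r => m r - s n r) r|
          ≤ |m r - s (n + 1) r| + |op V k (fun r => m r - s n r) r| := abs_sub _ _
        _ ≤ B * q ^ n / (1 - q) + B * q ^ n / (1 - q) := add_le_add (h2.trans h4) (h1.trans h4)
        _ = 2 * (B / (1 - q)) * q ^ n := by ring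
    have hz : Tendsto (fun n : ℕ => 2 * (B / (1 - q)) * q ^ n) atTop (𝓝 0) := by
      have := (tendsto_pow_atTop_nhds_zero_of_lt_one hq0 hq1).const_mul (2 * (B / (1 - q)))
      simpa using this
    have h0 : |m r - (b r + op V k m r)| ≤ 0 := ge_of_tendsto' hz key
    linarith [abs_nonpos_iff.mp h0]
  · intro hb0 hk0 r
    apply tsum_nonneg
    intro n
    have : ∀ n r, 0 ≤ u n r := by
      intro n
      induction n with
      | zero => exact hb0
      | succ n ih => rw [us]; exact fun r => op_nonneg hk0 ih r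
    exact this n r

include hV in
lemma op_kl_bound {lam : ℝ} (hl : 0 < lam) (f : E3 → ℝ) (C : ℝ) (hC : ∀ r, |f r| ≤ C) (r : E3) :
    |op V (kl lam) f r| ≤ (1 - Real.exp (-(lam * R))) * C := by
  have hC0 : 0 ≤ C := (abs_nonneg _).trans (hC 0)
  apply op_bound
  intro w
  have h := ray_bound (V := V) (continuous_kl lam) (fun x _ => (abs_of_nonneg (kl_nonneg hl.le x)).le) hC r w
  rw [integral_kl] at h
  refine h.trans ?_
  rw [mul_comm]
  apply mul_le_mul_of_nonneg_right _ hC0
  have : Real.exp (-(lam * R)) ≤ Real.exp (-(lam * exitD V r w)) := by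
    apply Real.exp_le_exp.mpr
    have := mul_le_mul_of_nonneg_left (exitD_le hV r w) hl.le
    linarith
  linarith

/-- `m` solves the averaged equation. -/
structure IsAvg (V : Set E3) (lam : ℝ) (m : E3 → ℝ) : Prop where
  meas : Measurable m
  bdd : ∃ C, ∀ r, |m r| ≤ C
  eq : ∀ r, m r = src V r + op V (kl lam) m r

include hV hVo in
theorem exists_avg {lam : ℝ} (hl : 0 < lam) : ∃ m, IsAvg V lam m ∧ ∀ r, 0 ≤ m r := by
  have hR := hV.1
  have he : Real.exp (-(lam * R)) ≤ 1 := Real.exp_le_one_iff.mpr (by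
    have := mul_pos hl hR
    linarith)
  obtain ⟨m, h1, h2, h3, h4⟩ := solve hV hVo (continuous_kl lam) (q := 1 - Real.exp (-(lam * R)))
    (by linarith) (by linarith [Real.exp_pos (-(lam * R))]) (op_kl_bound hV hl)
    (measurable_src hV hVo) (B := 1) (fun r => by
      rw [abs_of_nonneg (src_nonneg V r)]; exact src_le_one hV hVo r)
  exact ⟨m, ⟨h1, ⟨_, h2⟩, h3⟩, h4 (src_nonneg V) fun x _ => kl_nonneg hl.le x⟩

/-- Expansion of the kernel. -/
lemma rem_bound {R h x : ℝ} (hh : |h| ≤ 1 / 2) (hhR : |h| * R ≤ 1) (hx0 : 0 ≤ x)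
    (hxR : x ≤ R) : |kl (1 + h) x - kl 1 x - h * kd x| ≤ (R + 2 * R ^ 2) * h ^ 2 := by
  have e1 : kl (1 + h) x = Real.exp (-x) * ((1 + h) * Real.exp (-(h * x))) := by
    unfold kl
    rw [show -((1 + h) * x) = -x + -(h * x) by ring, Real.exp_add]
    ring
  have e2 : kl 1 x = Real.exp (-x) := by unfold kl; simp
  have hu : |-(h * x)| ≤ 1 := by
    rw [abs_neg, abs_mul, abs_of_nonneg hx0]
    exact (mul_le_mul_of_nonneg_left hxR (abs_nonneg h)).trans hhR
  have h1 := Real.abs_exp_sub_one_sub_id_le hu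
  set ρ := Real.exp (-(h * x)) - 1 - -(h * x) with hρ
  have e3 : kl (1 + h) x - kl 1 x - h * kd x = Real.exp (-x) * (-(h ^ 2 * x) + (1 + h) * ρ) := by
    rw [e1, e2, hρ]
    unfold kd
    ring
  rw [e3, abs_mul, abs_of_pos (Real.exp_pos _)]
  have hex : Real.exp (-x) ≤ 1 := Real.exp_le_one_iff.mpr (by linarith)
  have h2 : |-(h ^ 2 * x) + (1 + h) * ρ| ≤ (R + 2 * R ^ 2) * h ^ 2 := by
    have h3 : |-(h ^ 2 * x)| ≤ h ^ 2 * R := by
      rw [abs_neg, abs_of_nonneg (mul_nonneg (sq_nonneg h) hx0)]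
      exact mul_le_mul_of_nonneg_left hxR (sq_nonneg h)
    have h4 : |(1 + h) * ρ| ≤ 2 * (h ^ 2 * R ^ 2) := by
      rw [abs_mul]
      have h5 : |1 + h| ≤ 2 := by
        have := abs_add_le 1 h
        rw [abs_one] at this
        linarith
      have h6 : |ρ| ≤ h ^ 2 * R ^ 2 := by
        refine h1.trans ?_
        have : (-(h * x)) ^ 2 = h ^ 2 * x ^ 2 := by ring
        rw [this]
        apply mul_le_mul_of_nonneg_left _ (sq_nonneg h)
        exact pow_le_pow_left₀ hx0 hxR 2
      exact mul_le_mul h5 h6 (abs_nonneg _) (by norm_num)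
    calc |-(h ^ 2 * x) + (1 + h) * ρ| ≤ |-(h ^ 2 * x)| + |(1 + h) * ρ| := abs_add_le _ _
      _ ≤ h ^ 2 * R + 2 * (h ^ 2 * R ^ 2) := add_le_add h3 h4
      _ = _ := by ring
  calc Real.exp (-x) * |-(h ^ 2 * x) + (1 + h) * ρ| ≤ 1 * |-(h ^ 2 * x) + (1 + h) * ρ| :=
        mul_le_mul_of_nonneg_right hex (abs_nonneg _)
    _ ≤ _ := by rw [one_mul]; exact h2

lemma kd_abs_le {x : ℝ} (hx : 0 ≤ x) : |kd x| ≤ (1 + x) * Real.exp (-x) := by
  unfold kd
  rw [abs_mul, abs_of_pos (Real.exp_pos _)]
  apply mul_le_mul_of_nonneg_right _ (Real.exp_pos _).le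
  rw [abs_le]
  constructor <;> linarith

lemma kd_abs_le_one {x : ℝ} (hx : 0 ≤ x) : |kd x| ≤ 1 := by
  refine (kd_abs_le hx).trans ?_
  have h := Real.add_one_le_exp x
  have h2 := Real.exp_pos (-x)
  calc (1 + x) * Real.exp (-x) ≤ Real.exp x * Real.exp (-x) :=
        mul_le_mul_of_nonneg_right (by linarith) h2.le
    _ = 1 := by rw [← Real.exp_add]; simp

lemma integral_maj (D : ℝ) : ∫ x in (0 : ℝ)..D, (1 + x) * Real.exp (-x) = 2 - (2 + D) * Real.exp (-D) := by
  have h : ∀ x ∈ uIcc 0 D, HasDerivAt (fun x => -((2 + x) * Real.exp (-x))) ((1 + x) * Real.exp (-x)) x := by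
    intro x _
    have h1 : HasDerivAt (fun x : ℝ => 2 + x) 1 x := (hasDerivAt_id x).const_add 2
    have h2 : HasDerivAt (fun x : ℝ => Real.exp (-x)) (Real.exp (-x) * -1) x := (hasDerivAt_neg x).exp
    have h3 : HasDerivAt (fun x => -((2 + x) * Real.exp (-x)))
        (-(1 * Real.exp (-x) + (2 + x) * (Real.exp (-x) * -1))) x := (h1.mul h2).neg
    refine h3.congr_deriv ?_
    ring
  rw [intervalIntegral.integral_eq_sub_of_hasDerivAt h
    ((by fun_prop : Continuous fun x : ℝ => (1 + x) * Real.exp (-x)).intervalIntegrable _ _)]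
  simp
  ring

end

end Pool.Agent.R239.Transp
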